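import Pool.Agent.Lib.MP_afdd4d_co.K8.D6.Geo
import Pool.Agent.Lib.MP_afdd4d_co.K8.D6.Lks
import Pool.Agent.Lib.MP_afdd4d_co.K8.D6.T1
import Pool.Agent.Lib.MP_afdd4d_co.K8.D6.T2
import Pool.Agent.Lib.MP_afdd4d_co.K8.D6.T3
import Pool.Agent.Lib.MP_afdd4d_co.K8.D6.T4
import Pool.Agent.Lib.MP_afdd4d_co.K8.D6.T5
import Pool.Agent.Lib.MP_afdd4d_co.K8.D6.T6
import Pool.Agent.Lib.MP_afdd4d_co.K8.D6.T7

/-!
# The tables
-/

namespace Pool.Agent.Lib.MP_afdd4d_co.K8.D6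

set_option maxRecDepth 100000
set_option exponentiation.threshold 10000000

/-- The tables. -/
noncomputable def D : TF where
  W := 64
  w := 16
  of := 4398046511104
  fo := 2048
  kv := 44
  kb := 49
  tp := [[], l1, l2, l3, l4, l5, l6, l7]
  tab := tab
  prg := prg

end Pool.Agent.Lib.MP_afdd4d_co.K8.D6
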