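import Pool.Agent.Lib.MP_afdd4d_co.K8.D6.Dat

/-!
# The rows of the type 1
-/

namespace Pool.Agent.Lib.MP_afdd4d_co.K8.D6

set_option maxRecDepth 100000
set_option exponentiation.threshold 10000000

theorem z1_2 : allN (fun i => D.lbG 1 ls1 (lnG 16 P1 (Nat.add 360 i))) 180 = true := by
  decide +kernel

end Pool.Agent.Lib.MP_afdd4d_co.K8.D6
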