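import Pool.Agent.Lib.MP_afdd4d_co.K8.F6Chk
import Pool.Agent.Lib.MP_afdd4d_co.K8.D6.Dat
import Pool.Agent.Lib.MP_afdd4d_co.K8.D6.Q1
import Pool.Agent.Lib.MP_afdd4d_co.K8.D6.Q2
import Pool.Agent.Lib.MP_afdd4d_co.K8.D6.Q3
import Pool.Agent.Lib.MP_afdd4d_co.K8.D6.Q4
import Pool.Agent.Lib.MP_afdd4d_co.K8.D6.Q5
import Pool.Agent.Lib.MP_afdd4d_co.K8.D6.Q6
import Pool.Agent.Lib.MP_afdd4d_co.K8.D6.Q7
import Pool.Agent.Lib.MP_afdd4d_co.K8.D6.Z1_0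
import Pool.Agent.Lib.MP_afdd4d_co.K8.D6.Z1_1
import Pool.Agent.Lib.MP_afdd4d_co.K8.D6.Z1_2
import Pool.Agent.Lib.MP_afdd4d_co.K8.D6.Z1_3
import Pool.Agent.Lib.MP_afdd4d_co.K8.D6.Z1_4
import Pool.Agent.Lib.MP_afdd4d_co.K8.D6.Z1_5
import Pool.Agent.Lib.MP_afdd4d_co.K8.D6.Z2_0
import Pool.Agent.Lib.MP_afdd4d_co.K8.D6.Z2_1
import Pool.Agent.Lib.MP_afdd4d_co.K8.D6.Z2_2
import Pool.Agent.Lib.MP_afdd4d_co.K8.D6.Z2_3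
import Pool.Agent.Lib.MP_afdd4d_co.K8.D6.Z2_4
import Pool.Agent.Lib.MP_afdd4d_co.K8.D6.Z2_5
import Pool.Agent.Lib.MP_afdd4d_co.K8.D6.Z2_6
import Pool.Agent.Lib.MP_afdd4d_co.K8.D6.Z2_7
import Pool.Agent.Lib.MP_afdd4d_co.K8.D6.Z2_8
import Pool.Agent.Lib.MP_afdd4d_co.K8.D6.Z3_0
import Pool.Agent.Lib.MP_afdd4d_co.K8.D6.Z3_1
import Pool.Agent.Lib.MP_afdd4d_co.K8.D6.Z3_2
import Pool.Agent.Lib.MP_afdd4d_co.K8.D6.Z3_3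
import Pool.Agent.Lib.MP_afdd4d_co.K8.D6.Z3_4
import Pool.Agent.Lib.MP_afdd4d_co.K8.D6.Z3_5
import Pool.Agent.Lib.MP_afdd4d_co.K8.D6.Z3_6
import Pool.Agent.Lib.MP_afdd4d_co.K8.D6.Z3_7
import Pool.Agent.Lib.MP_afdd4d_co.K8.D6.Z3_8
import Pool.Agent.Lib.MP_afdd4d_co.K8.D6.Z3_9
import Pool.Agent.Lib.MP_afdd4d_co.K8.D6.Z3_10
import Pool.Agent.Lib.MP_afdd4d_co.K8.D6.Z3_11
import Pool.Agent.Lib.MP_afdd4d_co.K8.D6.Z3_12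
import Pool.Agent.Lib.MP_afdd4d_co.K8.D6.Z3_13
import Pool.Agent.Lib.MP_afdd4d_co.K8.D6.Z3_14
import Pool.Agent.Lib.MP_afdd4d_co.K8.D6.Z3_15
import Pool.Agent.Lib.MP_afdd4d_co.K8.D6.Z3_16
import Pool.Agent.Lib.MP_afdd4d_co.K8.D6.Z4_0
import Pool.Agent.Lib.MP_afdd4d_co.K8.D6.Z4_1
import Pool.Agent.Lib.MP_afdd4d_co.K8.D6.Z4_2
import Pool.Agent.Lib.MP_afdd4d_co.K8.D6.Z4_3
import Pool.Agent.Lib.MP_afdd4d_co.K8.D6.Z4_4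
import Pool.Agent.Lib.MP_afdd4d_co.K8.D6.Z4_5
import Pool.Agent.Lib.MP_afdd4d_co.K8.D6.Z4_6
import Pool.Agent.Lib.MP_afdd4d_co.K8.D6.Z4_7
import Pool.Agent.Lib.MP_afdd4d_co.K8.D6.Z4_8
import Pool.Agent.Lib.MP_afdd4d_co.K8.D6.Z5_0
import Pool.Agent.Lib.MP_afdd4d_co.K8.D6.Z5_1
import Pool.Agent.Lib.MP_afdd4d_co.K8.D6.Z5_2
import Pool.Agent.Lib.MP_afdd4d_co.K8.D6.Z5_3
import Pool.Agent.Lib.MP_afdd4d_co.K8.D6.Z5_4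
import Pool.Agent.Lib.MP_afdd4d_co.K8.D6.Z5_5
import Pool.Agent.Lib.MP_afdd4d_co.K8.D6.Z5_6
import Pool.Agent.Lib.MP_afdd4d_co.K8.D6.Z5_7
import Pool.Agent.Lib.MP_afdd4d_co.K8.D6.Z5_8
import Pool.Agent.Lib.MP_afdd4d_co.K8.D6.Z5_9
import Pool.Agent.Lib.MP_afdd4d_co.K8.D6.Z5_10
import Pool.Agent.Lib.MP_afdd4d_co.K8.D6.Z6_0
import Pool.Agent.Lib.MP_afdd4d_co.K8.D6.Z6_1
import Pool.Agent.Lib.MP_afdd4d_co.K8.D6.Z6_2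
import Pool.Agent.Lib.MP_afdd4d_co.K8.D6.Z6_3
import Pool.Agent.Lib.MP_afdd4d_co.K8.D6.Z6_4
import Pool.Agent.Lib.MP_afdd4d_co.K8.D6.Z6_5
import Pool.Agent.Lib.MP_afdd4d_co.K8.D6.Z6_6
import Pool.Agent.Lib.MP_afdd4d_co.K8.D6.Z6_7
import Pool.Agent.Lib.MP_afdd4d_co.K8.D6.Z6_8
import Pool.Agent.Lib.MP_afdd4d_co.K8.D6.Z6_9
import Pool.Agent.Lib.MP_afdd4d_co.K8.D6.Z6_10
import Pool.Agent.Lib.MP_afdd4d_co.K8.D6.Z6_11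
import Pool.Agent.Lib.MP_afdd4d_co.K8.D6.Z6_12
import Pool.Agent.Lib.MP_afdd4d_co.K8.D6.Z6_13
import Pool.Agent.Lib.MP_afdd4d_co.K8.D6.Z6_14
import Pool.Agent.Lib.MP_afdd4d_co.K8.D6.Z6_15
import Pool.Agent.Lib.MP_afdd4d_co.K8.D6.Z6_16
import Pool.Agent.Lib.MP_afdd4d_co.K8.D6.Z7_0
import Pool.Agent.Lib.MP_afdd4d_co.K8.D6.Z7_1
import Pool.Agent.Lib.MP_afdd4d_co.K8.D6.Z7_2
import Pool.Agent.Lib.MP_afdd4d_co.K8.D6.Z7_3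
import Pool.Agent.Lib.MP_afdd4d_co.K8.D6.Z7_4
import Pool.Agent.Lib.MP_afdd4d_co.K8.D6.Z7_5
import Pool.Agent.Lib.MP_afdd4d_co.K8.D6.Z7_6
import Pool.Agent.Lib.MP_afdd4d_co.K8.D6.Z7_7
import Pool.Agent.Lib.MP_afdd4d_co.K8.D6.Z7_8
import Pool.Agent.Lib.MP_afdd4d_co.K8.D6.Z7_9
import Pool.Agent.Lib.MP_afdd4d_co.K8.D6.Z7_10
import Pool.Agent.Lib.MP_afdd4d_co.K8.D6.Z7_11
import Pool.Agent.Lib.MP_afdd4d_co.K8.D6.Z7_12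
import Pool.Agent.Lib.MP_afdd4d_co.K8.D6.Z7_13
import Pool.Agent.Lib.MP_afdd4d_co.K8.D6.Z7_14
import Pool.Agent.Lib.MP_afdd4d_co.K8.D6.Z7_15
import Pool.Agent.Lib.MP_afdd4d_co.K8.D6.Z7_16
import Pool.Agent.Lib.MP_afdd4d_co.K8.D6.Z7_17

/-!
# The conditions
-/

namespace Pool.Agent.Lib.MP_afdd4d_co.K8.D6

set_option maxRecDepth 100000
set_option exponentiation.threshold 10000000

theorem num : D.numG = true := by decide +kernel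

theorem zA1 : ∀ z < 1024, D.lbG 1 ls1 z = true := by
  have h1 : ∀ i < 180, D.lbG 1 ls1 (lnG 16 P1 i) = true :=
    frG_join (fun i => D.lbG 1 ls1 (lnG 16 P1 i)) (fun i hi => absurd hi (Nat.not_lt_zero i)) z1_0 rfl
  have h2 : ∀ i < 360, D.lbG 1 ls1 (lnG 16 P1 i) = true :=
    frG_join (fun i => D.lbG 1 ls1 (lnG 16 P1 i)) h1 z1_1 rfl
  have h3 : ∀ i < 540, D.lbG 1 ls1 (lnG 16 P1 i) = true :=
    frG_join (fun i => D.lbG 1 ls1 (lnG 16 P1 i)) h2 z1_2 rfl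
  have h4 : ∀ i < 720, D.lbG 1 ls1 (lnG 16 P1 i) = true :=
    frG_join (fun i => D.lbG 1 ls1 (lnG 16 P1 i)) h3 z1_3 rfl
  have h5 : ∀ i < 900, D.lbG 1 ls1 (lnG 16 P1 i) = true :=
    frG_join (fun i => D.lbG 1 ls1 (lnG 16 P1 i)) h4 z1_4 rfl
  have h6 : ∀ i < 1024, D.lbG 1 ls1 (lnG 16 P1 i) = true :=
    frG_join (fun i => D.lbG 1 ls1 (lnG 16 P1 i)) h5 z1_5 rfl
  exact frG_all P1 1024 P1_ok _ h6

theorem zA2 : ∀ z < 1024, D.lbG 2 ls2 z = true := by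
  have h1 : ∀ i < 127, D.lbG 2 ls2 (lnG 16 P2 i) = true :=
    frG_join (fun i => D.lbG 2 ls2 (lnG 16 P2 i)) (fun i hi => absurd hi (Nat.not_lt_zero i)) z2_0 rfl
  have h2 : ∀ i < 254, D.lbG 2 ls2 (lnG 16 P2 i) = true :=
    frG_join (fun i => D.lbG 2 ls2 (lnG 16 P2 i)) h1 z2_1 rfl
  have h3 : ∀ i < 381, D.lbG 2 ls2 (lnG 16 P2 i) = true :=
    frG_join (fun i => D.lbG 2 ls2 (lnG 16 P2 i)) h2 z2_2 rfl
  have h4 : ∀ i < 508, D.lbG 2 ls2 (lnG 16 P2 i) = true :=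
    frG_join (fun i => D.lbG 2 ls2 (lnG 16 P2 i)) h3 z2_3 rfl
  have h5 : ∀ i < 635, D.lbG 2 ls2 (lnG 16 P2 i) = true :=
    frG_join (fun i => D.lbG 2 ls2 (lnG 16 P2 i)) h4 z2_4 rfl
  have h6 : ∀ i < 762, D.lbG 2 ls2 (lnG 16 P2 i) = true :=
    frG_join (fun i => D.lbG 2 ls2 (lnG 16 P2 i)) h5 z2_5 rfl
  have h7 : ∀ i < 889, D.lbG 2 ls2 (lnG 16 P2 i) = true :=
    frG_join (fun i => D.lbG 2 ls2 (lnG 16 P2 i)) h6 z2_6 rfl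
  have h8 : ∀ i < 1016, D.lbG 2 ls2 (lnG 16 P2 i) = true :=
    frG_join (fun i => D.lbG 2 ls2 (lnG 16 P2 i)) h7 z2_7 rfl
  have h9 : ∀ i < 1024, D.lbG 2 ls2 (lnG 16 P2 i) = true :=
    frG_join (fun i => D.lbG 2 ls2 (lnG 16 P2 i)) h8 z2_8 rfl
  exact frG_all P2 1024 P2_ok _ h9

theorem zA3 : ∀ z < 1024, D.lbG 3 ls3 z = true := by
  have h1 : ∀ i < 62, D.lbG 3 ls3 (lnG 16 P3 i) = true :=
    frG_join (fun i => D.lbG 3 ls3 (lnG 16 P3 i)) (fun i hi => absurd hi (Nat.not_lt_zero i)) z3_0 rfl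
  have h2 : ∀ i < 122, D.lbG 3 ls3 (lnG 16 P3 i) = true :=
    frG_join (fun i => D.lbG 3 ls3 (lnG 16 P3 i)) h1 z3_1 rfl
  have h3 : ∀ i < 182, D.lbG 3 ls3 (lnG 16 P3 i) = true :=
    frG_join (fun i => D.lbG 3 ls3 (lnG 16 P3 i)) h2 z3_2 rfl
  have h4 : ∀ i < 242, D.lbG 3 ls3 (lnG 16 P3 i) = true :=
    frG_join (fun i => D.lbG 3 ls3 (lnG 16 P3 i)) h3 z3_3 rfl
  have h5 : ∀ i < 302, D.lbG 3 ls3 (lnG 16 P3 i) = true :=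
    frG_join (fun i => D.lbG 3 ls3 (lnG 16 P3 i)) h4 z3_4 rfl
  have h6 : ∀ i < 362, D.lbG 3 ls3 (lnG 16 P3 i) = true :=
    frG_join (fun i => D.lbG 3 ls3 (lnG 16 P3 i)) h5 z3_5 rfl
  have h7 : ∀ i < 422, D.lbG 3 ls3 (lnG 16 P3 i) = true :=
    frG_join (fun i => D.lbG 3 ls3 (lnG 16 P3 i)) h6 z3_6 rfl
  have h8 : ∀ i < 482, D.lbG 3 ls3 (lnG 16 P3 i) = true :=
    frG_join (fun i => D.lbG 3 ls3 (lnG 16 P3 i)) h7 z3_7 rfl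
  have h9 : ∀ i < 542, D.lbG 3 ls3 (lnG 16 P3 i) = true :=
    frG_join (fun i => D.lbG 3 ls3 (lnG 16 P3 i)) h8 z3_8 rfl
  have h10 : ∀ i < 602, D.lbG 3 ls3 (lnG 16 P3 i) = true :=
    frG_join (fun i => D.lbG 3 ls3 (lnG 16 P3 i)) h9 z3_9 rfl
  have h11 : ∀ i < 662, D.lbG 3 ls3 (lnG 16 P3 i) = true :=
    frG_join (fun i => D.lbG 3 ls3 (lnG 16 P3 i)) h10 z3_10 rfl
  have h12 : ∀ i < 722, D.lbG 3 ls3 (lnG 16 P3 i) = true :=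
    frG_join (fun i => D.lbG 3 ls3 (lnG 16 P3 i)) h11 z3_11 rfl
  have h13 : ∀ i < 782, D.lbG 3 ls3 (lnG 16 P3 i) = true :=
    frG_join (fun i => D.lbG 3 ls3 (lnG 16 P3 i)) h12 z3_12 rfl
  have h14 : ∀ i < 842, D.lbG 3 ls3 (lnG 16 P3 i) = true :=
    frG_join (fun i => D.lbG 3 ls3 (lnG 16 P3 i)) h13 z3_13 rfl
  have h15 : ∀ i < 902, D.lbG 3 ls3 (lnG 16 P3 i) = true :=
    frG_join (fun i => D.lbG 3 ls3 (lnG 16 P3 i)) h14 z3_14 rfl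
  have h16 : ∀ i < 964, D.lbG 3 ls3 (lnG 16 P3 i) = true :=
    frG_join (fun i => D.lbG 3 ls3 (lnG 16 P3 i)) h15 z3_15 rfl
  have h17 : ∀ i < 1024, D.lbG 3 ls3 (lnG 16 P3 i) = true :=
    frG_join (fun i => D.lbG 3 ls3 (lnG 16 P3 i)) h16 z3_16 rfl
  exact frG_all P3 1024 P3_ok _ h17

theorem zA4 : ∀ z < 1024, D.lbG 4 ls4 z = true := by
  have h1 : ∀ i < 121, D.lbG 4 ls4 (lnG 16 P4 i) = true :=
    frG_join (fun i => D.lbG 4 ls4 (lnG 16 P4 i)) (fun i hi => absurd hi (Nat.not_lt_zero i)) z4_0 rfl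
  have h2 : ∀ i < 241, D.lbG 4 ls4 (lnG 16 P4 i) = true :=
    frG_join (fun i => D.lbG 4 ls4 (lnG 16 P4 i)) h1 z4_1 rfl
  have h3 : ∀ i < 358, D.lbG 4 ls4 (lnG 16 P4 i) = true :=
    frG_join (fun i => D.lbG 4 ls4 (lnG 16 P4 i)) h2 z4_2 rfl
  have h4 : ∀ i < 475, D.lbG 4 ls4 (lnG 16 P4 i) = true :=
    frG_join (fun i => D.lbG 4 ls4 (lnG 16 P4 i)) h3 z4_3 rfl
  have h5 : ∀ i < 592, D.lbG 4 ls4 (lnG 16 P4 i) = true :=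
    frG_join (fun i => D.lbG 4 ls4 (lnG 16 P4 i)) h4 z4_4 rfl
  have h6 : ∀ i < 709, D.lbG 4 ls4 (lnG 16 P4 i) = true :=
    frG_join (fun i => D.lbG 4 ls4 (lnG 16 P4 i)) h5 z4_5 rfl
  have h7 : ∀ i < 826, D.lbG 4 ls4 (lnG 16 P4 i) = true :=
    frG_join (fun i => D.lbG 4 ls4 (lnG 16 P4 i)) h6 z4_6 rfl
  have h8 : ∀ i < 946, D.lbG 4 ls4 (lnG 16 P4 i) = true :=
    frG_join (fun i => D.lbG 4 ls4 (lnG 16 P4 i)) h7 z4_7 rfl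
  have h9 : ∀ i < 1024, D.lbG 4 ls4 (lnG 16 P4 i) = true :=
    frG_join (fun i => D.lbG 4 ls4 (lnG 16 P4 i)) h8 z4_8 rfl
  exact frG_all P4 1024 P4_ok _ h9

theorem zA5 : ∀ z < 1024, D.lbG 5 ls5 z = true := by
  have h1 : ∀ i < 98, D.lbG 5 ls5 (lnG 16 P5 i) = true :=
    frG_join (fun i => D.lbG 5 ls5 (lnG 16 P5 i)) (fun i hi => absurd hi (Nat.not_lt_zero i)) z5_0 rfl
  have h2 : ∀ i < 196, D.lbG 5 ls5 (lnG 16 P5 i) = true :=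
    frG_join (fun i => D.lbG 5 ls5 (lnG 16 P5 i)) h1 z5_1 rfl
  have h3 : ∀ i < 294, D.lbG 5 ls5 (lnG 16 P5 i) = true :=
    frG_join (fun i => D.lbG 5 ls5 (lnG 16 P5 i)) h2 z5_2 rfl
  have h4 : ∀ i < 392, D.lbG 5 ls5 (lnG 16 P5 i) = true :=
    frG_join (fun i => D.lbG 5 ls5 (lnG 16 P5 i)) h3 z5_3 rfl
  have h5 : ∀ i < 490, D.lbG 5 ls5 (lnG 16 P5 i) = true :=
    frG_join (fun i => D.lbG 5 ls5 (lnG 16 P5 i)) h4 z5_4 rfl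
  have h6 : ∀ i < 588, D.lbG 5 ls5 (lnG 16 P5 i) = true :=
    frG_join (fun i => D.lbG 5 ls5 (lnG 16 P5 i)) h5 z5_5 rfl
  have h7 : ∀ i < 686, D.lbG 5 ls5 (lnG 16 P5 i) = true :=
    frG_join (fun i => D.lbG 5 ls5 (lnG 16 P5 i)) h6 z5_6 rfl
  have h8 : ∀ i < 784, D.lbG 5 ls5 (lnG 16 P5 i) = true :=
    frG_join (fun i => D.lbG 5 ls5 (lnG 16 P5 i)) h7 z5_7 rfl
  have h9 : ∀ i < 882, D.lbG 5 ls5 (lnG 16 P5 i) = true :=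
    frG_join (fun i => D.lbG 5 ls5 (lnG 16 P5 i)) h8 z5_8 rfl
  have h10 : ∀ i < 980, D.lbG 5 ls5 (lnG 16 P5 i) = true :=
    frG_join (fun i => D.lbG 5 ls5 (lnG 16 P5 i)) h9 z5_9 rfl
  have h11 : ∀ i < 1024, D.lbG 5 ls5 (lnG 16 P5 i) = true :=
    frG_join (fun i => D.lbG 5 ls5 (lnG 16 P5 i)) h10 z5_10 rfl
  exact frG_all P5 1024 P5_ok _ h11

theorem zA6 : ∀ z < 1024, D.lbG 6 ls6 z = true := by
  have h1 : ∀ i < 63, D.lbG 6 ls6 (lnG 16 P6 i) = true :=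
    frG_join (fun i => D.lbG 6 ls6 (lnG 16 P6 i)) (fun i hi => absurd hi (Nat.not_lt_zero i)) z6_0 rfl
  have h2 : ∀ i < 126, D.lbG 6 ls6 (lnG 16 P6 i) = true :=
    frG_join (fun i => D.lbG 6 ls6 (lnG 16 P6 i)) h1 z6_1 rfl
  have h3 : ∀ i < 189, D.lbG 6 ls6 (lnG 16 P6 i) = true :=
    frG_join (fun i => D.lbG 6 ls6 (lnG 16 P6 i)) h2 z6_2 rfl
  have h4 : ∀ i < 252, D.lbG 6 ls6 (lnG 16 P6 i) = true :=
    frG_join (fun i => D.lbG 6 ls6 (lnG 16 P6 i)) h3 z6_3 rfl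
  have h5 : ∀ i < 315, D.lbG 6 ls6 (lnG 16 P6 i) = true :=
    frG_join (fun i => D.lbG 6 ls6 (lnG 16 P6 i)) h4 z6_4 rfl
  have h6 : ∀ i < 378, D.lbG 6 ls6 (lnG 16 P6 i) = true :=
    frG_join (fun i => D.lbG 6 ls6 (lnG 16 P6 i)) h5 z6_5 rfl
  have h7 : ∀ i < 441, D.lbG 6 ls6 (lnG 16 P6 i) = true :=
    frG_join (fun i => D.lbG 6 ls6 (lnG 16 P6 i)) h6 z6_6 rfl
  have h8 : ∀ i < 504, D.lbG 6 ls6 (lnG 16 P6 i) = true :=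
    frG_join (fun i => D.lbG 6 ls6 (lnG 16 P6 i)) h7 z6_7 rfl
  have h9 : ∀ i < 567, D.lbG 6 ls6 (lnG 16 P6 i) = true :=
    frG_join (fun i => D.lbG 6 ls6 (lnG 16 P6 i)) h8 z6_8 rfl
  have h10 : ∀ i < 630, D.lbG 6 ls6 (lnG 16 P6 i) = true :=
    frG_join (fun i => D.lbG 6 ls6 (lnG 16 P6 i)) h9 z6_9 rfl
  have h11 : ∀ i < 693, D.lbG 6 ls6 (lnG 16 P6 i) = true :=
    frG_join (fun i => D.lbG 6 ls6 (lnG 16 P6 i)) h10 z6_10 rfl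
  have h12 : ∀ i < 756, D.lbG 6 ls6 (lnG 16 P6 i) = true :=
    frG_join (fun i => D.lbG 6 ls6 (lnG 16 P6 i)) h11 z6_11 rfl
  have h13 : ∀ i < 819, D.lbG 6 ls6 (lnG 16 P6 i) = true :=
    frG_join (fun i => D.lbG 6 ls6 (lnG 16 P6 i)) h12 z6_12 rfl
  have h14 : ∀ i < 882, D.lbG 6 ls6 (lnG 16 P6 i) = true :=
    frG_join (fun i => D.lbG 6 ls6 (lnG 16 P6 i)) h13 z6_13 rfl
  have h15 : ∀ i < 945, D.lbG 6 ls6 (lnG 16 P6 i) = true :=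
    frG_join (fun i => D.lbG 6 ls6 (lnG 16 P6 i)) h14 z6_14 rfl
  have h16 : ∀ i < 1008, D.lbG 6 ls6 (lnG 16 P6 i) = true :=
    frG_join (fun i => D.lbG 6 ls6 (lnG 16 P6 i)) h15 z6_15 rfl
  have h17 : ∀ i < 1024, D.lbG 6 ls6 (lnG 16 P6 i) = true :=
    frG_join (fun i => D.lbG 6 ls6 (lnG 16 P6 i)) h16 z6_16 rfl
  exact frG_all P6 1024 P6_ok _ h17

theorem zA7 : ∀ z < 1024, D.lbG 7 ls7 z = true := by
  have h1 : ∀ i < 68, D.lbG 7 ls7 (lnG 16 P7 i) = true :=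
    frG_join (fun i => D.lbG 7 ls7 (lnG 16 P7 i)) (fun i hi => absurd hi (Nat.not_lt_zero i)) z7_0 rfl
  have h2 : ∀ i < 136, D.lbG 7 ls7 (lnG 16 P7 i) = true :=
    frG_join (fun i => D.lbG 7 ls7 (lnG 16 P7 i)) h1 z7_1 rfl
  have h3 : ∀ i < 204, D.lbG 7 ls7 (lnG 16 P7 i) = true :=
    frG_join (fun i => D.lbG 7 ls7 (lnG 16 P7 i)) h2 z7_2 rfl
  have h4 : ∀ i < 272, D.lbG 7 ls7 (lnG 16 P7 i) = true :=
    frG_join (fun i => D.lbG 7 ls7 (lnG 16 P7 i)) h3 z7_3 rfl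
  have h5 : ∀ i < 340, D.lbG 7 ls7 (lnG 16 P7 i) = true :=
    frG_join (fun i => D.lbG 7 ls7 (lnG 16 P7 i)) h4 z7_4 rfl
  have h6 : ∀ i < 406, D.lbG 7 ls7 (lnG 16 P7 i) = true :=
    frG_join (fun i => D.lbG 7 ls7 (lnG 16 P7 i)) h5 z7_5 rfl
  have h7 : ∀ i < 472, D.lbG 7 ls7 (lnG 16 P7 i) = true :=
    frG_join (fun i => D.lbG 7 ls7 (lnG 16 P7 i)) h6 z7_6 rfl
  have h8 : ∀ i < 538, D.lbG 7 ls7 (lnG 16 P7 i) = true :=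
    frG_join (fun i => D.lbG 7 ls7 (lnG 16 P7 i)) h7 z7_7 rfl
  have h9 : ∀ i < 592, D.lbG 7 ls7 (lnG 16 P7 i) = true :=
    frG_join (fun i => D.lbG 7 ls7 (lnG 16 P7 i)) h8 z7_8 rfl
  have h10 : ∀ i < 640, D.lbG 7 ls7 (lnG 16 P7 i) = true :=
    frG_join (fun i => D.lbG 7 ls7 (lnG 16 P7 i)) h9 z7_9 rfl
  have h11 : ∀ i < 688, D.lbG 7 ls7 (lnG 16 P7 i) = true :=
    frG_join (fun i => D.lbG 7 ls7 (lnG 16 P7 i)) h10 z7_10 rfl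
  have h12 : ∀ i < 736, D.lbG 7 ls7 (lnG 16 P7 i) = true :=
    frG_join (fun i => D.lbG 7 ls7 (lnG 16 P7 i)) h11 z7_11 rfl
  have h13 : ∀ i < 784, D.lbG 7 ls7 (lnG 16 P7 i) = true :=
    frG_join (fun i => D.lbG 7 ls7 (lnG 16 P7 i)) h12 z7_12 rfl
  have h14 : ∀ i < 832, D.lbG 7 ls7 (lnG 16 P7 i) = true :=
    frG_join (fun i => D.lbG 7 ls7 (lnG 16 P7 i)) h13 z7_13 rfl
  have h15 : ∀ i < 880, D.lbG 7 ls7 (lnG 16 P7 i) = true :=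
    frG_join (fun i => D.lbG 7 ls7 (lnG 16 P7 i)) h14 z7_14 rfl
  have h16 : ∀ i < 928, D.lbG 7 ls7 (lnG 16 P7 i) = true :=
    frG_join (fun i => D.lbG 7 ls7 (lnG 16 P7 i)) h15 z7_15 rfl
  have h17 : ∀ i < 976, D.lbG 7 ls7 (lnG 16 P7 i) = true :=
    frG_join (fun i => D.lbG 7 ls7 (lnG 16 P7 i)) h16 z7_16 rfl
  have h18 : ∀ i < 1024, D.lbG 7 ls7 (lnG 16 P7 i) = true :=
    frG_join (fun i => D.lbG 7 ls7 (lnG 16 P7 i)) h17 z7_17 rfl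
  exact frG_all P7 1024 P7_ok _ h18

theorem tp_length : D.tp.length = 8 := rfl

theorem all_types (Q : ℕ → Prop) (h1 : Q 1) (h2 : Q 2) (h3 : Q 3) (h4 : Q 4) (h5 : Q 5) (h6 : Q 6)
    (h7 : Q 7) : ∀ τ, 0 < τ → τ < D.tp.length → Q τ := by
  intro τ h0 h8
  rw [tp_length] at h8
  interval_cases τ <;> assumption

theorem tyA : ∀ τ, 0 < τ → τ < D.tp.length → D.tyF 42 11 (D.L τ) = true :=
  all_types _ ty1 ty2 ty3 ty4 ty5 ty6 ty7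

theorem numOK : D.NumOK := TF.numG_spec num

/-- The conditions on the rows. -/
theorem rowsOK : D.RowsOK := by
  refine ⟨numOK, fun τ => ?_, rfl, ?_⟩
  · rcases Nat.eq_zero_or_pos τ with h1 | h1
    · rw [h1]
      exact TF.tyOK_nil
    · by_cases h2 : τ < D.tp.length
      · exact (TF.tyF_spec numOK (tyA τ h1 h2)).1
      · rw [TF.L_out τ (by omega)]
        exact TF.tyOK_nil
  · exact all_types _ (fun z hz => (TF.lbG_spec (zA1 z hz)).1) (fun z hz => (TF.lbG_spec (zA2 z hz)).1)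
      (fun z hz => (TF.lbG_spec (zA3 z hz)).1) (fun z hz => (TF.lbG_spec (zA4 z hz)).1)
      (fun z hz => (TF.lbG_spec (zA5 z hz)).1) (fun z hz => (TF.lbG_spec (zA6 z hz)).1)
      (fun z hz => (TF.lbG_spec (zA7 z hz)).1)

theorem prA : allN D.prG 1024 = true := by decide +kernel

theorem prOK : D.PrOK := TF.prG_spec prA

theorem psdOK : D.fd.PsdOK :=
  TF.psdOK_of rowsOK (fun τ => [F1, F1, F2, F3, F4, F5, F6, F7].getD τ F1)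
    (fun τ => [0, 101, 90, 127, 92, 103, 128, 122].getD τ 0) (all_types _ pd1 pd2 pd3 pd4 pd5 pd6 pd7)

theorem lsA_good : ∀ L ∈ lsA, L.ac.length = 10 ∧
    D.fd.Good L.ty L.ty L.ab fun k => L.ac.getD k 0 := by
  intro L hL
  unfold lsA at hL
  simp only [List.mem_cons, List.mem_append] at hL
  have hlt : ∀ τ, τ < 8 → τ < D.tp.length := fun τ h => h
  rcases hL with rfl | rfl | rfl | rfl | rfl | rfl | rfl | h | h | h | h | h | h | h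
  · exact TF.idL_good 1
  · exact TF.idL_good 2
  · exact TF.idL_good 3
  · exact TF.idL_good 4
  · exact TF.idL_good 5
  · exact TF.idL_good 6
  · exact TF.idL_good 7
  · exact TF.lis_of rowsOK (by norm_num) (hlt 1 (by norm_num)) ls1_ok zA1 L h
  · exact TF.lis_of rowsOK (by norm_num) (hlt 2 (by norm_num)) ls2_ok zA2 L h
  · exact TF.lis_of rowsOK (by norm_num) (hlt 3 (by norm_num)) ls3_ok zA3 L h
  · exact TF.lis_of rowsOK (by norm_num) (hlt 4 (by norm_num)) ls4_ok zA4 L h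
  · exact TF.lis_of rowsOK (by norm_num) (hlt 5 (by norm_num)) ls5_ok zA5 L h
  · exact TF.lis_of rowsOK (by norm_num) (hlt 6 (by norm_num)) ls6_ok zA6 L h
  · exact TF.lis_of rowsOK (by norm_num) (hlt 7 (by norm_num)) ls7_ok zA7 L h

theorem iv0 : allN (D.ivG LT lsA (idL 1) 0) 1024 = true := by decide +kernel
theorem iv1 : allN (D.ivG LT lsA (idL 1) 1) 1024 = true := by decide +kernel
theorem iv2 : allN (D.ivG LT lsA (idL 1) 2) 1024 = true := by decide +kernel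
theorem iv3 : allN (D.ivG LT lsA (idL 1) 3) 1024 = true := by decide +kernel
theorem iv4 : allN (D.ivG LT lsA (idL 1) 4) 1024 = true := by decide +kernel

theorem invOK : D.fd.InvOK := by
  refine TF.inv_ok D LT lsA (idL 1) lsA_good fun i hi => ?_
  interval_cases i
  · exact iv0
  · exact iv1
  · exact iv2
  · exact iv3
  · exact iv4

theorem symOK : D.SymOK := by
  intro τ
  rcases Nat.eq_zero_or_pos τ with h1 | h1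
  · rw [h1]
    rfl
  · by_cases h2 : τ < D.tp.length
    · exact all_types (fun τ => symG D.W D.of (rwsG (D.L τ)) = true) (PD.sym pd1) (PD.sym pd2)
        (PD.sym pd3) (PD.sym pd4) (PD.sym pd5) (PD.sym pd6) (PD.sym pd7) τ h1 h2
    · rw [TF.L_out τ (by omega)]
      rfl

end Pool.Agent.Lib.MP_afdd4d_co.K8.D6
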