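import Pool.Agent.Lib.MP_afdd4d_co.K8.D6.Dat
import Pool.Agent.Lib.MP_afdd4d_co.K8.D6.C0
import Pool.Agent.Lib.MP_afdd4d_co.K8.D6.C1
import Pool.Agent.Lib.MP_afdd4d_co.K8.D6.C2
import Pool.Agent.Lib.MP_afdd4d_co.K8.D6.C3
import Pool.Agent.Lib.MP_afdd4d_co.K8.D6.C4
import Pool.Agent.Lib.MP_afdd4d_co.K8.D6.C5
import Pool.Agent.Lib.MP_afdd4d_co.K8.D6.C6
import Pool.Agent.Lib.MP_afdd4d_co.K8.D6.C7
import Pool.Agent.Lib.MP_afdd4d_co.K8.D6.C8
import Pool.Agent.Lib.MP_afdd4d_co.K8.D6.C9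
import Pool.Agent.Lib.MP_afdd4d_co.K8.D6.C10
import Pool.Agent.Lib.MP_afdd4d_co.K8.D6.C11
import Pool.Agent.Lib.MP_afdd4d_co.K8.D6.C12
import Pool.Agent.Lib.MP_afdd4d_co.K8.D6.C13
import Pool.Agent.Lib.MP_afdd4d_co.K8.D6.C14
import Pool.Agent.Lib.MP_afdd4d_co.K8.D6.C15
import Pool.Agent.Lib.MP_afdd4d_co.K8.D6.C16
import Pool.Agent.Lib.MP_afdd4d_co.K8.D6.C17
import Pool.Agent.Lib.MP_afdd4d_co.K8.D6.C18
import Pool.Agent.Lib.MP_afdd4d_co.K8.D6.C19
import Pool.Agent.Lib.MP_afdd4d_co.K8.D6.C20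
import Pool.Agent.Lib.MP_afdd4d_co.K8.D6.C21
import Pool.Agent.Lib.MP_afdd4d_co.K8.D6.C22
import Pool.Agent.Lib.MP_afdd4d_co.K8.D6.C23
import Pool.Agent.Lib.MP_afdd4d_co.K8.D6.C24
import Pool.Agent.Lib.MP_afdd4d_co.K8.D6.C25
import Pool.Agent.Lib.MP_afdd4d_co.K8.D6.C26
import Pool.Agent.Lib.MP_afdd4d_co.K8.D6.C27

/-!
# The tables of the blocks
-/

namespace Pool.Agent.Lib.MP_afdd4d_co.K8.D6

set_option maxRecDepth 100000
set_option exponentiation.threshold 10000000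

/-- The tables. -/
noncomputable def TB : List (List (List (List ℕ))) := [
  [c0, c1, c2, c3, c4, c5, c6, c7, c8, c9, c10, c11, c12, c13, c14, c15],
  [c16, c17, c18, c19, c20, c21, c22, c23, c24, c25, c26, c27, c28, c29, c30, c31],
  [c32, c33, c34, c35, c36, c37, c38, c39, c40, c41, c42, c43, c44, c45, c46, c47],
  [c48, c49, c50, c51, c52, c53, c54, c55, c56, c57, c58, c59, c60, c61, c62, c63],
  [c64, c65, c66, c67, c68, c69, c70, c71, c72, c73, c74, c75, c76, c77, c78, c79],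
  [c80, c81, c82, c83, c84, c85, c86, c87, c88, c89, c90, c91, c92, c93, c94, c95],
  [c96, c97, c98, c99, c100, c101, c102, c103, c104, c105, c106, c107, c108, c109, c110, c111],
  [c112, c113, c114, c115, c116, c117, c118, c119, c120, c121, c122, c123, c124, c125, c126,
   c127],
  [c128, c129, c130, c131, c132, c133, c134, c135, c136, c137, c138, c139, c140, c141, c142,
   c143],
  [c144, c145, c146, c147, c148, c149, c150, c151, c152, c153, c154, c155, c156, c157, c158,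
   c159],
  [c160, c161, c162, c163, c164, c165, c166, c167, c168, c169, c170, c171, c172, c173, c174,
   c175],
  [c176, c177, c178, c179, c180, c181, c182, c183, c184, c185, c186, c187, c188, c189, c190,
   c191],
  [c192, c193, c194, c195, c196, c197, c198, c199, c200, c201, c202, c203, c204, c205, c206,
   c207],
  [c208, c209, c210, c211, c212, c213, c214, c215, c216, c217, c218]]

end Pool.Agent.Lib.MP_afdd4d_co.K8.D6
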