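import Pool.Agent.Lib.MP_afdd4d_co.K8.D6.Fin
import Pool.Agent.Lib.MP_afdd4d_co.K8.D6.B0
import Pool.Agent.Lib.MP_afdd4d_co.K8.D6.B1
import Pool.Agent.Lib.MP_afdd4d_co.K8.D6.B2
import Pool.Agent.Lib.MP_afdd4d_co.K8.D6.B3
import Pool.Agent.Lib.MP_afdd4d_co.K8.D6.TbD

/-!
# The tables of the blocks
-/

namespace Pool.Agent.Lib.MP_afdd4d_co.K8.D6

set_option maxRecDepth 100000
set_option exponentiation.threshold 10000000

theorem qs_ok : (E.qs.all fun q => decide (q.1 < 1024)) = true := by decide +kernel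

theorem be_ok : ∀ x0 < 64, allN (E.beG D al tabA x0) 1024 = true := by
  have h1 := frG_join (fun i => allN (E.beG D al tabA i) 1024) (m := 16)
    (fun i hi => absurd hi (Nat.not_lt_zero i)) be0 rfl
  have h2 := frG_join (fun i => allN (E.beG D al tabA i) 1024) (m := 32) h1 be1 rfl
  have h3 := frG_join (fun i => allN (E.beG D al tabA i) 1024) (m := 48) h2 be2 rfl
  exact frG_join (fun i => allN (E.beG D al tabA i) 1024) h3 be3 rfl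

theorem eOK : E.OK D := BE.beG_spec E D al tabA (TF.auG_good lsA_good al al_ok) qs_ok be_ok

theorem tb0 : ∀ j < 16, ((TB.getD 0 []).getD j []) =
    slO 64 (D.chG (E.qs.getD (16 * 0 + j) (0, 0)).1 (E.qs.getD (16 * 0 + j) (0, 0)).2) 8 := by
  intro j hj
  interval_cases j
  exacts [
    eqNN_eq _ _ k0, eqNN_eq _ _ k1, eqNN_eq _ _ k2, eqNN_eq _ _ k3, eqNN_eq _ _ k4,
    eqNN_eq _ _ k5, eqNN_eq _ _ k6, eqNN_eq _ _ k7, eqNN_eq _ _ k8, eqNN_eq _ _ k9,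
    eqNN_eq _ _ k10, eqNN_eq _ _ k11, eqNN_eq _ _ k12, eqNN_eq _ _ k13, eqNN_eq _ _ k14,
    eqNN_eq _ _ k15]

theorem tb1 : ∀ j < 16, ((TB.getD 1 []).getD j []) =
    slO 64 (D.chG (E.qs.getD (16 * 1 + j) (0, 0)).1 (E.qs.getD (16 * 1 + j) (0, 0)).2) 8 := by
  intro j hj
  interval_cases j
  exacts [
    eqNN_eq _ _ k16, eqNN_eq _ _ k17, eqNN_eq _ _ k18, eqNN_eq _ _ k19, eqNN_eq _ _ k20,
    eqNN_eq _ _ k21, eqNN_eq _ _ k22, eqNN_eq _ _ k23, eqNN_eq _ _ k24, eqNN_eq _ _ k25,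
    eqNN_eq _ _ k26, eqNN_eq _ _ k27, eqNN_eq _ _ k28, eqNN_eq _ _ k29, eqNN_eq _ _ k30,
    eqNN_eq _ _ k31]

theorem tb2 : ∀ j < 16, ((TB.getD 2 []).getD j []) =
    slO 64 (D.chG (E.qs.getD (16 * 2 + j) (0, 0)).1 (E.qs.getD (16 * 2 + j) (0, 0)).2) 8 := by
  intro j hj
  interval_cases j
  exacts [
    eqNN_eq _ _ k32, eqNN_eq _ _ k33, eqNN_eq _ _ k34, eqNN_eq _ _ k35, eqNN_eq _ _ k36,
    eqNN_eq _ _ k37, eqNN_eq _ _ k38, eqNN_eq _ _ k39, eqNN_eq _ _ k40, eqNN_eq _ _ k41,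
    eqNN_eq _ _ k42, eqNN_eq _ _ k43, eqNN_eq _ _ k44, eqNN_eq _ _ k45, eqNN_eq _ _ k46,
    eqNN_eq _ _ k47]

theorem tb3 : ∀ j < 16, ((TB.getD 3 []).getD j []) =
    slO 64 (D.chG (E.qs.getD (16 * 3 + j) (0, 0)).1 (E.qs.getD (16 * 3 + j) (0, 0)).2) 8 := by
  intro j hj
  interval_cases j
  exacts [
    eqNN_eq _ _ k48, eqNN_eq _ _ k49, eqNN_eq _ _ k50, eqNN_eq _ _ k51, eqNN_eq _ _ k52,
    eqNN_eq _ _ k53, eqNN_eq _ _ k54, eqNN_eq _ _ k55, eqNN_eq _ _ k56, eqNN_eq _ _ k57,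
    eqNN_eq _ _ k58, eqNN_eq _ _ k59, eqNN_eq _ _ k60, eqNN_eq _ _ k61, eqNN_eq _ _ k62,
    eqNN_eq _ _ k63]

theorem tb4 : ∀ j < 16, ((TB.getD 4 []).getD j []) =
    slO 64 (D.chG (E.qs.getD (16 * 4 + j) (0, 0)).1 (E.qs.getD (16 * 4 + j) (0, 0)).2) 8 := by
  intro j hj
  interval_cases j
  exacts [
    eqNN_eq _ _ k64, eqNN_eq _ _ k65, eqNN_eq _ _ k66, eqNN_eq _ _ k67, eqNN_eq _ _ k68,
    eqNN_eq _ _ k69, eqNN_eq _ _ k70, eqNN_eq _ _ k71, eqNN_eq _ _ k72, eqNN_eq _ _ k73,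
    eqNN_eq _ _ k74, eqNN_eq _ _ k75, eqNN_eq _ _ k76, eqNN_eq _ _ k77, eqNN_eq _ _ k78,
    eqNN_eq _ _ k79]

theorem tb5 : ∀ j < 16, ((TB.getD 5 []).getD j []) =
    slO 64 (D.chG (E.qs.getD (16 * 5 + j) (0, 0)).1 (E.qs.getD (16 * 5 + j) (0, 0)).2) 8 := by
  intro j hj
  interval_cases j
  exacts [
    eqNN_eq _ _ k80, eqNN_eq _ _ k81, eqNN_eq _ _ k82, eqNN_eq _ _ k83, eqNN_eq _ _ k84,
    eqNN_eq _ _ k85, eqNN_eq _ _ k86, eqNN_eq _ _ k87, eqNN_eq _ _ k88, eqNN_eq _ _ k89,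
    eqNN_eq _ _ k90, eqNN_eq _ _ k91, eqNN_eq _ _ k92, eqNN_eq _ _ k93, eqNN_eq _ _ k94,
    eqNN_eq _ _ k95]

theorem tb6 : ∀ j < 16, ((TB.getD 6 []).getD j []) =
    slO 64 (D.chG (E.qs.getD (16 * 6 + j) (0, 0)).1 (E.qs.getD (16 * 6 + j) (0, 0)).2) 8 := by
  intro j hj
  interval_cases j
  exacts [
    eqNN_eq _ _ k96, eqNN_eq _ _ k97, eqNN_eq _ _ k98, eqNN_eq _ _ k99, eqNN_eq _ _ k100,
    eqNN_eq _ _ k101, eqNN_eq _ _ k102, eqNN_eq _ _ k103, eqNN_eq _ _ k104, eqNN_eq _ _ k105,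
    eqNN_eq _ _ k106, eqNN_eq _ _ k107, eqNN_eq _ _ k108, eqNN_eq _ _ k109, eqNN_eq _ _ k110,
    eqNN_eq _ _ k111]

theorem tb7 : ∀ j < 16, ((TB.getD 7 []).getD j []) =
    slO 64 (D.chG (E.qs.getD (16 * 7 + j) (0, 0)).1 (E.qs.getD (16 * 7 + j) (0, 0)).2) 8 := by
  intro j hj
  interval_cases j
  exacts [
    eqNN_eq _ _ k112, eqNN_eq _ _ k113, eqNN_eq _ _ k114, eqNN_eq _ _ k115, eqNN_eq _ _ k116,
    eqNN_eq _ _ k117, eqNN_eq _ _ k118, eqNN_eq _ _ k119, eqNN_eq _ _ k120, eqNN_eq _ _ k121,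
    eqNN_eq _ _ k122, eqNN_eq _ _ k123, eqNN_eq _ _ k124, eqNN_eq _ _ k125, eqNN_eq _ _ k126,
    eqNN_eq _ _ k127]

theorem tb8 : ∀ j < 16, ((TB.getD 8 []).getD j []) =
    slO 64 (D.chG (E.qs.getD (16 * 8 + j) (0, 0)).1 (E.qs.getD (16 * 8 + j) (0, 0)).2) 8 := by
  intro j hj
  interval_cases j
  exacts [
    eqNN_eq _ _ k128, eqNN_eq _ _ k129, eqNN_eq _ _ k130, eqNN_eq _ _ k131, eqNN_eq _ _ k132,
    eqNN_eq _ _ k133, eqNN_eq _ _ k134, eqNN_eq _ _ k135, eqNN_eq _ _ k136, eqNN_eq _ _ k137,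
    eqNN_eq _ _ k138, eqNN_eq _ _ k139, eqNN_eq _ _ k140, eqNN_eq _ _ k141, eqNN_eq _ _ k142,
    eqNN_eq _ _ k143]

theorem tb9 : ∀ j < 16, ((TB.getD 9 []).getD j []) =
    slO 64 (D.chG (E.qs.getD (16 * 9 + j) (0, 0)).1 (E.qs.getD (16 * 9 + j) (0, 0)).2) 8 := by
  intro j hj
  interval_cases j
  exacts [
    eqNN_eq _ _ k144, eqNN_eq _ _ k145, eqNN_eq _ _ k146, eqNN_eq _ _ k147, eqNN_eq _ _ k148,
    eqNN_eq _ _ k149, eqNN_eq _ _ k150, eqNN_eq _ _ k151, eqNN_eq _ _ k152, eqNN_eq _ _ k153,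
    eqNN_eq _ _ k154, eqNN_eq _ _ k155, eqNN_eq _ _ k156, eqNN_eq _ _ k157, eqNN_eq _ _ k158,
    eqNN_eq _ _ k159]

theorem tb10 : ∀ j < 16, ((TB.getD 10 []).getD j []) =
    slO 64 (D.chG (E.qs.getD (16 * 10 + j) (0, 0)).1 (E.qs.getD (16 * 10 + j) (0, 0)).2) 8 := by
  intro j hj
  interval_cases j
  exacts [
    eqNN_eq _ _ k160, eqNN_eq _ _ k161, eqNN_eq _ _ k162, eqNN_eq _ _ k163, eqNN_eq _ _ k164,
    eqNN_eq _ _ k165, eqNN_eq _ _ k166, eqNN_eq _ _ k167, eqNN_eq _ _ k168, eqNN_eq _ _ k169,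
    eqNN_eq _ _ k170, eqNN_eq _ _ k171, eqNN_eq _ _ k172, eqNN_eq _ _ k173, eqNN_eq _ _ k174,
    eqNN_eq _ _ k175]

theorem tb11 : ∀ j < 16, ((TB.getD 11 []).getD j []) =
    slO 64 (D.chG (E.qs.getD (16 * 11 + j) (0, 0)).1 (E.qs.getD (16 * 11 + j) (0, 0)).2) 8 := by
  intro j hj
  interval_cases j
  exacts [
    eqNN_eq _ _ k176, eqNN_eq _ _ k177, eqNN_eq _ _ k178, eqNN_eq _ _ k179, eqNN_eq _ _ k180,
    eqNN_eq _ _ k181, eqNN_eq _ _ k182, eqNN_eq _ _ k183, eqNN_eq _ _ k184, eqNN_eq _ _ k185,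
    eqNN_eq _ _ k186, eqNN_eq _ _ k187, eqNN_eq _ _ k188, eqNN_eq _ _ k189, eqNN_eq _ _ k190,
    eqNN_eq _ _ k191]

theorem tb12 : ∀ j < 16, ((TB.getD 12 []).getD j []) =
    slO 64 (D.chG (E.qs.getD (16 * 12 + j) (0, 0)).1 (E.qs.getD (16 * 12 + j) (0, 0)).2) 8 := by
  intro j hj
  interval_cases j
  exacts [
    eqNN_eq _ _ k192, eqNN_eq _ _ k193, eqNN_eq _ _ k194, eqNN_eq _ _ k195, eqNN_eq _ _ k196,
    eqNN_eq _ _ k197, eqNN_eq _ _ k198, eqNN_eq _ _ k199, eqNN_eq _ _ k200, eqNN_eq _ _ k201,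
    eqNN_eq _ _ k202, eqNN_eq _ _ k203, eqNN_eq _ _ k204, eqNN_eq _ _ k205, eqNN_eq _ _ k206,
    eqNN_eq _ _ k207]

theorem tb13 : ∀ j < 11, ((TB.getD 13 []).getD j []) =
    slO 64 (D.chG (E.qs.getD (16 * 13 + j) (0, 0)).1 (E.qs.getD (16 * 13 + j) (0, 0)).2) 8 := by
  intro j hj
  interval_cases j
  exacts [
    eqNN_eq _ _ k208, eqNN_eq _ _ k209, eqNN_eq _ _ k210, eqNN_eq _ _ k211, eqNN_eq _ _ k212,
    eqNN_eq _ _ k213, eqNN_eq _ _ k214, eqNN_eq _ _ k215, eqNN_eq _ _ k216, eqNN_eq _ _ k217,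
    eqNN_eq _ _ k218]

theorem tb_ok : ∀ t < E.qs.length, ∀ z < 64, BE.tbH TB t z =
    slG D.W 8 (D.chG (E.qs.getD t (0, 0)).1 (E.qs.getD t (0, 0)).2) z := by
  refine BE.tbH_of TB 219 64 (fun t => D.chG (E.qs.getD t (0, 0)).1 (E.qs.getD t (0, 0)).2) ?_
  intro i hi j hj hij
  have hi' : i < 14 := by omega
  interval_cases i
  · exact tb0 j (by omega)
  · exact tb1 j (by omega)
  · exact tb2 j (by omega)
  · exact tb3 j (by omega)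
  · exact tb4 j (by omega)
  · exact tb5 j (by omega)
  · exact tb6 j (by omega)
  · exact tb7 j (by omega)
  · exact tb8 j (by omega)
  · exact tb9 j (by omega)
  · exact tb10 j (by omega)
  · exact tb11 j (by omega)
  · exact tb12 j (by omega)
  · exact tb13 j (by omega)

end Pool.Agent.Lib.MP_afdd4d_co.K8.D6
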